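import Pool.Agent.helper24.SK.Spec

set_option autoImplicit false

namespace Pool.Agent.SK

open Finset ArithmeticFunction MeasureTheory
open Pool.Agent.CH (nit DPb Win Tset ph)
open Pool.Agent.EC (tri vN fN XN TL AdT)
open Pool.Agent.helper85.BVP (tau)
open GD (ks)

theorem ABL_aux (c : ℕ → ℂ) (R : ℕ → ℝ) (a : ℕ) (K : ℝ) (j : ℕ) :
    (∀ m n, a < m → m ≤ n → n ≤ a + 1 + j → R m ≤ R n) → (∀ u ≤ a + 1 + j, ‖∑ n ∈ Ioc a u, c n‖ ≤ K) →
    ‖∑ n ∈ Ioc a (a + 1 + j), c n * ((R n : ℝ) : ℂ) -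
        (∑ n ∈ Ioc a (a + 1 + j), c n) * ((R (a + 1 + j) : ℝ) : ℂ)‖ ≤ K * (R (a + 1 + j) - R (a + 1)) := by
  induction j with
  | zero =>
    intro _ _
    rw [add_zero, Nat.Ioc_succ_singleton, Finset.sum_singleton, Finset.sum_singleton, sub_self, norm_zero,
      sub_self, mul_zero]
  | succ j ih =>
    intro h1 h2
    have ih' := ih (fun m n p q r => h1 m n p q (by omega)) (fun u hu => h2 u (by omega))
    have e0 : a + 1 + (j + 1) = (a + 1 + j) + 1 := by ring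
    rw [e0] at h1 h2 ⊢
    have e1 : Ioc a (a + 1 + j + 1) = insert (a + 1 + j + 1) (Ioc a (a + 1 + j)) := by
      ext x
      simp only [Finset.mem_Ioc, Finset.mem_insert]
      omega
    have e2 : a + 1 + j + 1 ∉ Ioc a (a + 1 + j) := by
      simp only [Finset.mem_Ioc]
      omega
    rw [e1, Finset.sum_insert e2, Finset.sum_insert e2]
    have hK := h2 (a + 1 + j) (by omega)
    have hR := h1 (a + 1 + j) (a + 1 + j + 1) (by omega) (by omega) le_rfl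
    generalize ∑ n ∈ Ioc a (a + 1 + j), c n * ((R n : ℝ) : ℂ) = S at ih' ⊢
    generalize ∑ n ∈ Ioc a (a + 1 + j), c n = C at ih' hK ⊢
    have e3 : c (a + 1 + j + 1) * ((R (a + 1 + j + 1) : ℝ) : ℂ) + S -
        (c (a + 1 + j + 1) + C) * ((R (a + 1 + j + 1) : ℝ) : ℂ) =
        (S - C * ((R (a + 1 + j) : ℝ) : ℂ)) - C * ((R (a + 1 + j + 1) - R (a + 1 + j) : ℝ) : ℂ) := by
      push_cast
      ring
    rw [e3]
    have h5 : ‖C * ((R (a + 1 + j + 1) - R (a + 1 + j) : ℝ) : ℂ)‖ ≤ K * (R (a + 1 + j + 1) - R (a + 1 + j)) := by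
      rw [norm_mul, Complex.norm_real, Real.norm_of_nonneg (by linarith)]
      exact mul_le_mul_of_nonneg_right hK (by linarith)
    have h6 := norm_sub_le (S - C * ((R (a + 1 + j) : ℝ) : ℂ)) (C * ((R (a + 1 + j + 1) - R (a + 1 + j) : ℝ) : ℂ))
    have h7 : K * (R (a + 1 + j) - R (a + 1)) + K * (R (a + 1 + j + 1) - R (a + 1 + j)) =
        K * (R (a + 1 + j + 1) - R (a + 1)) := by ring
    linarith

theorem ABL : ABL_stmt := by
  intro c R a b K h0 h1 h2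
  have hK : 0 ≤ K := (norm_nonneg _).trans (h2 b le_rfl)
  rcases Nat.lt_or_ge a b with hab | hab
  · obtain ⟨j, rfl⟩ : ∃ j, b = a + 1 + j := ⟨b - (a + 1), by omega⟩
    have h3 := ABL_aux c R a K j h1 h2
    have h4 := h2 (a + 1 + j) le_rfl
    have h5 : ‖(∑ n ∈ Ioc a (a + 1 + j), c n) * ((R (a + 1 + j) : ℝ) : ℂ)‖ ≤ K * R (a + 1 + j) := by
      rw [norm_mul, Complex.norm_real, Real.norm_of_nonneg (h0 _)]
      exact mul_le_mul_of_nonneg_right h4 (h0 _)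
    have h6 : ‖∑ n ∈ Ioc a (a + 1 + j), c n * ((R n : ℝ) : ℂ)‖ ≤
        ‖∑ n ∈ Ioc a (a + 1 + j), c n * ((R n : ℝ) : ℂ) -
          (∑ n ∈ Ioc a (a + 1 + j), c n) * ((R (a + 1 + j) : ℝ) : ℂ)‖ +
        ‖(∑ n ∈ Ioc a (a + 1 + j), c n) * ((R (a + 1 + j) : ℝ) : ℂ)‖ := by
      have := norm_add_le (∑ n ∈ Ioc a (a + 1 + j), c n * ((R n : ℝ) : ℂ) -
          (∑ n ∈ Ioc a (a + 1 + j), c n) * ((R (a + 1 + j) : ℝ) : ℂ))
        ((∑ n ∈ Ioc a (a + 1 + j), c n) * ((R (a + 1 + j) : ℝ) : ℂ))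
      rwa [sub_add_cancel] at this
    have h7 : 0 ≤ K * R (a + 1) := mul_nonneg hK (h0 _)
    linarith
  · rw [Finset.Ioc_eq_empty (by omega), Finset.sum_empty, norm_zero]
    have := h0 b
    positivity

end Pool.Agent.SK
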