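import Pool.Agent.helper24.SK.Spec

set_option autoImplicit false

namespace Pool.Agent.SK

open Finset ArithmeticFunction MeasureTheory
open Pool.Agent.CH (nit DPb Win Tset ph)
open Pool.Agent.EC (tri vN fN XN TL AdT)
open Pool.Agent.helper85.BVP (tau)
open GD (ks)

theorem CS3_cs (f g : ℝ → ℝ) (hf : Continuous f) (hg : Continuous g) (T : ℝ) (hT : 0 ≤ T) :
    (∫ t in (-T)..T, f t * g t) ^ 2 ≤ (∫ t in (-T)..T, f t ^ 2) * ∫ t in (-T)..T, g t ^ 2 := by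
  have hii : ∀ F : ℝ → ℝ, Continuous F → IntervalIntegrable F volume (-T) T := fun F hF =>
    hF.intervalIntegrable _ _
  have key : ∀ x : ℝ, 0 ≤ (∫ t in (-T)..T, f t ^ 2) * (x * x) + (-2 * ∫ t in (-T)..T, f t * g t) * x +
      ∫ t in (-T)..T, g t ^ 2 := by
    intro x
    have h0 : 0 ≤ ∫ t in (-T)..T, (x * f t - g t) ^ 2 :=
      intervalIntegral.integral_nonneg (by linarith) fun t _ => sq_nonneg _
    have h1 : ∫ t in (-T)..T, (x * f t - g t) ^ 2 =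
        ∫ t in (-T)..T, ((x * x * f t ^ 2 + (-2 * x) * (f t * g t)) + g t ^ 2) := by
      refine intervalIntegral.integral_congr fun t _ => ?_
      ring
    rw [h1, intervalIntegral.integral_add (hii _ (by fun_prop)) (hii _ (by fun_prop)),
      intervalIntegral.integral_add (hii _ (by fun_prop)) (hii _ (by fun_prop)),
      intervalIntegral.integral_const_mul, intervalIntegral.integral_const_mul] at h0
    linarith
  have hd := discrim_le_zero key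
  unfold discrim at hd
  nlinarith

theorem CS3_csn (a b : ℝ → ℂ) (Ka Kb T n : ℝ) (ha : Continuous a) (hb : Continuous b) (hKa : 0 ≤ Ka)
    (hT : 0 ≤ T) (hn : 0 ≤ n)
    (h1 : ∫ t in (-T)..T, ‖a t‖ ^ 2 ≤ Ka * n) (h2 : ∫ t in (-T)..T, ‖b t‖ ^ 2 ≤ Kb * n) :
    ∫ t in (-T)..T, ‖a t‖ * ‖b t‖ ≤ √(Ka * Kb) * n := by
  have h3 : (∫ t in (-T)..T, ‖a t‖ * ‖b t‖) ^ 2 ≤
      (∫ t in (-T)..T, ‖a t‖ ^ 2) * ∫ t in (-T)..T, ‖b t‖ ^ 2 :=
    CS3_cs (fun t => ‖a t‖) (fun t => ‖b t‖) ha.norm hb.norm T hT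
  have hB0 : 0 ≤ ∫ t in (-T)..T, ‖b t‖ ^ 2 :=
    intervalIntegral.integral_nonneg (by linarith) fun t _ => sq_nonneg _
  have h4 : (∫ t in (-T)..T, ‖a t‖ * ‖b t‖) ^ 2 ≤ (Ka * n) * (Kb * n) :=
    h3.trans (mul_le_mul h1 h2 hB0 (mul_nonneg hKa hn))
  have h5 : ∫ t in (-T)..T, ‖a t‖ * ‖b t‖ ≤ √((Ka * n) * (Kb * n)) :=
    Real.le_sqrt_of_sq_le h4
  have h6 : (Ka * n) * (Kb * n) = (Ka * Kb) * n ^ 2 := by ring
  rw [h6, Real.sqrt_mul' _ (sq_nonneg n), Real.sqrt_sq hn] at h5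
  exact h5

/-- the continuous majorant -/
noncomputable def CS3_w (N : ℝ) (t : ℝ) : ℝ := min 1 (8 * N ^ 2 / max (N ^ 2) (t ^ 2))

theorem CS3_wc (N : ℝ) (hN : 0 < N) : Continuous (CS3_w N) := by
  unfold CS3_w
  refine continuous_const.min (Continuous.div continuous_const (continuous_const.max (continuous_pow 2)) ?_)
  intro t
  have : 0 < max (N ^ 2) (t ^ 2) := lt_of_lt_of_le (by positivity) (le_max_left _ _)
  exact this.ne'

theorem CS3_w0 (N t : ℝ) (hN : 0 < N) : 0 ≤ CS3_w N t := by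
  unfold CS3_w
  have : 0 < max (N ^ 2) (t ^ 2) := lt_of_lt_of_le (by positivity) (le_max_left _ _)
  exact le_min zero_le_one (by positivity)

theorem CS3_w1 (N t : ℝ) : CS3_w N t ≤ 1 := min_le_left _ _

theorem CS3_w2 (N t : ℝ) (hN : 0 < N) : min 1 (8 * N ^ 2 / t ^ 2) ≤ CS3_w N t := by
  unfold CS3_w
  rcases le_total (t ^ 2) (N ^ 2) with h | h
  · rw [max_eq_left h]
    have : 8 * N ^ 2 / N ^ 2 = 8 := by
      field_simp
    rw [this]
    have h1 : min 1 (8 * N ^ 2 / t ^ 2) ≤ 1 := min_le_left _ _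
    exact le_min h1 (h1.trans (by norm_num))
  · rw [max_eq_right h]

theorem CS3_w3 (N t T : ℝ) (hN : 0 < N) (hT : 0 < T) (h : T ^ 2 ≤ t ^ 2) : CS3_w N t ≤ 8 * N ^ 2 / T ^ 2 := by
  unfold CS3_w
  refine (min_le_right _ _).trans ?_
  refine div_le_div_of_nonneg_left (by positivity) (by positivity) (h.trans (le_max_right _ _))

theorem CS3_step (a b : ℝ → ℂ) (N T : ℝ) (hN : 0 < N) (hT : 0 < T) (ha : Continuous a) (hb : Continuous b) :
    ∫ t in (-(2 * T))..(2 * T), ‖a t‖ * ‖b t‖ * CS3_w N t ≤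
      (∫ t in (-T)..T, ‖a t‖ * ‖b t‖ * CS3_w N t) +
        8 * N ^ 2 / T ^ 2 * ∫ t in (-(2 * T))..(2 * T), ‖a t‖ * ‖b t‖ := by
  have hw := CS3_wc N hN
  have hF : Continuous fun t => ‖a t‖ * ‖b t‖ * CS3_w N t := (ha.norm.mul hb.norm).mul hw
  have hG : Continuous fun t => ‖a t‖ * ‖b t‖ := ha.norm.mul hb.norm
  have hiF : ∀ x y : ℝ, IntervalIntegrable (fun t => ‖a t‖ * ‖b t‖ * CS3_w N t) volume x y := fun x y =>
    hF.intervalIntegrable _ _
  have hiG : ∀ x y : ℝ, IntervalIntegrable (fun t => ‖a t‖ * ‖b t‖) volume x y := fun x y =>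
    hG.intervalIntegrable _ _
  have e1 : ∫ t in (-(2 * T))..(2 * T), ‖a t‖ * ‖b t‖ * CS3_w N t =
      (∫ t in (-(2 * T))..(-T), ‖a t‖ * ‖b t‖ * CS3_w N t) + (∫ t in (-T)..T, ‖a t‖ * ‖b t‖ * CS3_w N t) +
        ∫ t in T..(2 * T), ‖a t‖ * ‖b t‖ * CS3_w N t := by
    rw [intervalIntegral.integral_add_adjacent_intervals (hiF _ _) (hiF _ _),
      intervalIntegral.integral_add_adjacent_intervals (hiF _ _) (hiF _ _)]
  have e2 : ∫ t in (-(2 * T))..(2 * T), ‖a t‖ * ‖b t‖ =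
      (∫ t in (-(2 * T))..(-T), ‖a t‖ * ‖b t‖) + (∫ t in (-T)..T, ‖a t‖ * ‖b t‖) +
        ∫ t in T..(2 * T), ‖a t‖ * ‖b t‖ := by
    rw [intervalIntegral.integral_add_adjacent_intervals (hiG _ _) (hiG _ _),
      intervalIntegral.integral_add_adjacent_intervals (hiG _ _) (hiG _ _)]
  have h1 : ∫ t in (-(2 * T))..(-T), ‖a t‖ * ‖b t‖ * CS3_w N t ≤
      8 * N ^ 2 / T ^ 2 * ∫ t in (-(2 * T))..(-T), ‖a t‖ * ‖b t‖ := by
    rw [← intervalIntegral.integral_const_mul]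
    refine intervalIntegral.integral_mono_on (by linarith) (hiF _ _) ((hiG _ _).const_mul _) fun t ht => ?_
    have h2 : T ^ 2 ≤ t ^ 2 := by nlinarith [ht.1, ht.2]
    have h3 := CS3_w3 N t T hN hT h2
    have h4 : 0 ≤ ‖a t‖ * ‖b t‖ := by positivity
    nlinarith [mul_le_mul_of_nonneg_left h3 h4]
  have h2 : ∫ t in T..(2 * T), ‖a t‖ * ‖b t‖ * CS3_w N t ≤
      8 * N ^ 2 / T ^ 2 * ∫ t in T..(2 * T), ‖a t‖ * ‖b t‖ := by
    rw [← intervalIntegral.integral_const_mul]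
    refine intervalIntegral.integral_mono_on (by linarith) (hiF _ _) ((hiG _ _).const_mul _) fun t ht => ?_
    have h2 : T ^ 2 ≤ t ^ 2 := by nlinarith [ht.1, ht.2]
    have h3 := CS3_w3 N t T hN hT h2
    have h4 : 0 ≤ ‖a t‖ * ‖b t‖ := by positivity
    nlinarith [mul_le_mul_of_nonneg_left h3 h4]
  have h3 : 0 ≤ ∫ t in (-T)..T, ‖a t‖ * ‖b t‖ :=
    intervalIntegral.integral_nonneg (by linarith) fun t _ => by positivity
  have h4 : 0 ≤ 8 * N ^ 2 / T ^ 2 * ∫ t in (-T)..T, ‖a t‖ * ‖b t‖ := mul_nonneg (by positivity) h3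
  rw [e1, e2]
  linarith

theorem CS3_dy (a b : ℝ → ℂ) (N Ka Kb : ℝ) (hN : 0 < N) (ha : Continuous a) (hb : Continuous b) (hKa : 0 ≤ Ka)
    (h1 : ∀ T : ℝ, N ≤ T → ∫ t in (-T)..T, ‖a t‖ ^ 2 ≤ Ka * (T / N))
    (h2 : ∀ T : ℝ, N ≤ T → ∫ t in (-T)..T, ‖b t‖ ^ 2 ≤ Kb * (T / N)) (n : ℕ) :
    ∫ t in (-(2 ^ n * N))..(2 ^ n * N), ‖a t‖ * ‖b t‖ * CS3_w N t ≤ √(Ka * Kb) * (33 - 32 / 2 ^ n) := by
  have hw := CS3_wc N hN
  have hcs : ∀ T : ℝ, N ≤ T → ∫ t in (-T)..T, ‖a t‖ * ‖b t‖ ≤ √(Ka * Kb) * (T / N) := fun T hT =>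
    CS3_csn a b Ka Kb T (T / N) ha hb hKa (hN.le.trans hT) (div_nonneg (hN.le.trans hT) hN.le) (h1 T hT) (h2 T hT)
  induction n with
  | zero =>
    have h3 := hcs N le_rfl
    rw [div_self hN.ne', mul_one] at h3
    rw [pow_zero, one_mul]
    have h4 : ∫ t in (-N)..N, ‖a t‖ * ‖b t‖ * CS3_w N t ≤ ∫ t in (-N)..N, ‖a t‖ * ‖b t‖ := by
      refine intervalIntegral.integral_mono_on (by linarith)
        (((ha.norm.mul hb.norm).mul hw).intervalIntegrable _ _)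
        ((ha.norm.mul hb.norm).intervalIntegrable _ _) fun t ht => ?_
      have h5 := CS3_w1 N t
      have h6 : 0 ≤ ‖a t‖ * ‖b t‖ := by positivity
      nlinarith [mul_le_mul_of_nonneg_left h5 h6]
    have h7 : (33 : ℝ) - 32 / 1 = 1 := by norm_num
    rw [h7, mul_one]
    exact h4.trans h3
  | succ n ih =>
    have hT : 0 < 2 ^ n * N := by positivity
    have hs := CS3_step a b N (2 ^ n * N) hN hT ha hb
    have e1 : 2 * (2 ^ n * N) = 2 ^ (n + 1) * N := by ring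
    rw [e1] at hs
    have h3 := hcs (2 ^ (n + 1) * N) (by
      have : (1 : ℝ) ≤ 2 ^ (n + 1) := one_le_pow₀ (by norm_num)
      nlinarith)
    have e2 : 2 ^ (n + 1) * N / N = 2 ^ (n + 1) := by
      field_simp
    rw [e2] at h3
    have e3 : 8 * N ^ 2 / (2 ^ n * N) ^ 2 = 8 / (2 ^ n) ^ 2 := by
      field_simp
    rw [e3] at hs
    have h4 : 8 / (2 ^ n) ^ 2 * ∫ t in (-(2 ^ (n + 1) * N))..(2 ^ (n + 1) * N), ‖a t‖ * ‖b t‖ ≤
        8 / (2 ^ n) ^ 2 * (√(Ka * Kb) * 2 ^ (n + 1)) := mul_le_mul_of_nonneg_left h3 (by positivity)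
    have e4 : 8 / (2 ^ n) ^ 2 * (√(Ka * Kb) * 2 ^ (n + 1)) = √(Ka * Kb) * (16 / 2 ^ n) := by
      have h8 : (2 : ℝ) ^ n ≠ 0 := by positivity
      have h9 : (2 : ℝ) ^ (n + 1) = 2 * 2 ^ n := by ring
      rw [h9]
      generalize (2 : ℝ) ^ n = y at h8
      field_simp
      ring
    have e5 : √(Ka * Kb) * (33 - 32 / 2 ^ n) + √(Ka * Kb) * (16 / 2 ^ n) =
        √(Ka * Kb) * (33 - 32 / 2 ^ (n + 1)) := by
      rw [pow_succ]
      field_simp
      ring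
    rw [← e5]
    rw [e4] at h4
    linarith

theorem CS3 : CS3_stmt := by
  intro N B₁ a b c Ka Kb Kc hN1 ha hb hc hKa hKb hKc h1 h2 h3
  have hN : (0 : ℝ) < N := by
    have : 0 < N := hN1
    exact_mod_cast this
  have hw := CS3_wc (N : ℝ) hN
  have hG : Continuous fun t => Kc * (‖a t‖ * ‖b t‖ * CS3_w N t) :=
    continuous_const.mul ((ha.norm.mul hb.norm).mul hw)
  have hG0 : ∀ t, 0 ≤ Kc * (‖a t‖ * ‖b t‖ * CS3_w N t) := fun t =>
    mul_nonneg hKc (mul_nonneg (by positivity) (CS3_w0 _ _ hN))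
  obtain ⟨n, hn⟩ : ∃ n : ℕ, (N : ℝ) ^ (1 + 2 * (1 / 200 : ℝ)) < 2 ^ n :=
    pow_unbounded_of_one_lt _ one_lt_two
  have hN1' : (1 : ℝ) ≤ N := by exact_mod_cast hN1
  have h2n : (0 : ℝ) < 2 ^ n := by positivity
  have hU : (N : ℝ) ^ (1 + 2 * (1 / 200 : ℝ)) < 2 ^ n * N := by nlinarith
  have hmeas : MeasurableSet (Tset (1 / 200) B₁ N) := by
    unfold Tset
    refine MeasurableSet.inter ?_ ?_
    · exact measurableSet_le measurable_const measurable_norm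
    · exact measurableSet_le measurable_norm measurable_const
  have hsub : Tset (1 / 200) B₁ N ⊆ Set.Ioc (-(2 ^ n * (N : ℝ))) (2 ^ n * N) := by
    intro t ht
    have h4 : |t| ≤ (N : ℝ) ^ (1 + 2 * (1 / 200 : ℝ)) := ht.2
    have h5 := abs_le.1 (h4.trans hU.le)
    have h6 := abs_lt.1 (lt_of_le_of_lt h4 hU)
    exact ⟨h6.1, h5.2⟩
  have hint : IntegrableOn (fun t => Kc * (‖a t‖ * ‖b t‖ * CS3_w N t))
      (Set.Ioc (-(2 ^ n * (N : ℝ))) (2 ^ n * N)) volume :=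
    (hG.integrableOn_Icc).mono_set Set.Ioc_subset_Icc_self
  calc ∫ t in Tset (1 / 200) B₁ N, ‖a t‖ * ‖b t‖ * ‖c t‖ * min 1 (8 * (N : ℝ) ^ 2 / t ^ 2)
      ≤ ∫ t in Tset (1 / 200) B₁ N, Kc * (‖a t‖ * ‖b t‖ * CS3_w N t) := by
        refine integral_mono_of_nonneg ?_ (hint.mono_set hsub) ?_
        · refine Filter.Eventually.of_forall fun t => ?_
          have : 0 ≤ min 1 (8 * (N : ℝ) ^ 2 / t ^ 2) := le_min zero_le_one (by positivity)
          simp only [Pi.zero_apply]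
          positivity
        · refine (ae_restrict_of_forall_mem hmeas) fun t ht => ?_
          simp only
          have h4 := h3 t ht
          have h5 := CS3_w2 (N : ℝ) t hN
          have h6 : 0 ≤ ‖a t‖ * ‖b t‖ := by positivity
          have h7 : 0 ≤ min 1 (8 * (N : ℝ) ^ 2 / t ^ 2) := le_min zero_le_one (by positivity)
          calc ‖a t‖ * ‖b t‖ * ‖c t‖ * min 1 (8 * (N : ℝ) ^ 2 / t ^ 2)
              ≤ ‖a t‖ * ‖b t‖ * Kc * CS3_w N t := by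
                refine mul_le_mul (mul_le_mul_of_nonneg_left h4 h6) h5 h7 (mul_nonneg h6 hKc)
            _ = Kc * (‖a t‖ * ‖b t‖ * CS3_w N t) := by ring
    _ ≤ ∫ t in Set.Ioc (-(2 ^ n * (N : ℝ))) (2 ^ n * N), Kc * (‖a t‖ * ‖b t‖ * CS3_w N t) := by
        refine setIntegral_mono_set hint ?_ ?_
        · exact Filter.Eventually.of_forall fun t => hG0 t
        · exact Filter.Eventually.of_forall hsub
    _ = Kc * ∫ t in (-(2 ^ n * (N : ℝ)))..(2 ^ n * N), ‖a t‖ * ‖b t‖ * CS3_w N t := by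
        have hp : (0 : ℝ) < 2 ^ n * N := by positivity
        rw [← intervalIntegral.integral_of_le (by linarith), intervalIntegral.integral_const_mul]
    _ ≤ Kc * (√(Ka * Kb) * (33 - 32 / 2 ^ n)) :=
        mul_le_mul_of_nonneg_left (CS3_dy a b N Ka Kb hN ha hb hKa h1 h2 n) hKc
    _ ≤ 40 * (Kc * √(Ka * Kb)) := by
        have h8 : (33 : ℝ) - 32 / 2 ^ n ≤ 40 := by
          have : (0 : ℝ) ≤ 32 / 2 ^ n := by positivity
          linarith
        have h9 : 0 ≤ Kc * √(Ka * Kb) := mul_nonneg hKc (Real.sqrt_nonneg _)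
        nlinarith [mul_le_mul_of_nonneg_left h8 h9]

end Pool.Agent.SK
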