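import Pool.Agent.helper24.SK.Spec

set_option autoImplicit false

namespace Pool.Agent.SK

open Finset ArithmeticFunction MeasureTheory
open Pool.Agent.CH (nit DPb Win Tset ph)
open Pool.Agent.EC (tri vN fN XN TL AdT)
open Pool.Agent.helper85.BVP (tau)
open GD (ks)

theorem G0B_large (B : ℕ) : ∃ N₀ : ℕ, ∀ N : ℕ, N₀ ≤ N → 1 ≤ Real.log N ∧ Real.log N ^ B ≤ (N : ℝ) ∧ 1 ≤ (N : ℝ) := by
  have h1 : ∀ᶠ x : ℝ in Filter.atTop, ‖Real.log x ^ B‖ ≤ 1 * ‖x‖ :=
    (Asymptotics.isLittleO_iff.1 (Real.isLittleO_pow_log_id_atTop (n := B))) one_pos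
  have h2 : ∀ᶠ x : ℝ in Filter.atTop, 1 ≤ Real.log x := Real.tendsto_log_atTop.eventually_ge_atTop 1
  have h3 : ∀ᶠ x : ℝ in Filter.atTop, 1 ≤ x := Filter.eventually_ge_atTop 1
  have h4 := tendsto_natCast_atTop_atTop (R := ℝ) |>.eventually (h1.and (h2.and h3))
  obtain ⟨N₀, hN₀⟩ := Filter.eventually_atTop.1 h4
  refine ⟨N₀, fun N hN => ?_⟩
  obtain ⟨a, b, c⟩ := hN₀ N hN
  refine ⟨b, ?_, c⟩
  rw [one_mul, Real.norm_eq_abs, Real.norm_eq_abs, abs_of_nonneg (a := (N : ℝ)) (by linarith)] at a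
  exact (le_abs_self _).trans a

theorem G0B (h1 : TRB_stmt) : G0B_stmt := by
  intro B
  obtain ⟨N₀, hN₀⟩ := G0B_large B
  refine ⟨N₀, fun N hN v => ?_⟩
  obtain ⟨hL, hLN, hN1⟩ := hN₀ N hN
  have hNpos : (0 : ℝ) < N := by linarith
  have hLB1 : 1 ≤ Real.log N ^ B := one_le_pow₀ hL
  have hLB : 0 < Real.log N ^ B := by linarith
  have hδ : (0 : ℝ) < 1 / (N : ℝ) := by positivity
  have hδ' : (0 : ℝ) < 1 / Real.log N ^ B := by positivity
  obtain ⟨a1, a2, a3, a4, a5, a6, a7, a8⟩ := h1 v (1 / (N : ℝ)) hδ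
  obtain ⟨b1, b2, b3, b4, b5, b6, b7, b8⟩ := h1 v (1 / Real.log N ^ B) hδ'
  have hle : 1 / (N : ℝ) ≤ 1 / Real.log N ^ B := one_div_le_one_div_of_le hLB hLN
  have hc : 0 ≤ Real.log N ^ B / N := by positivity
  have hc1 : Real.log N ^ B / N ≤ 1 := (div_le_one hNpos).2 hLN
  have hcont : ∀ δ : ℝ, 0 < δ → (∀ x y, |tr0 v δ x - tr0 v δ y| ≤ |x - y| / δ) → Continuous (tr0 v δ) := by
    intro δ hδ0 hl
    unfold tr0
    fun_prop
  have hca : Continuous (tr0 v (1 / (N : ℝ))) := hcont _ hδ a3
  have hcb : Continuous (tr0 v (1 / Real.log N ^ B)) := hcont _ hδ' b3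
  have hg : Continuous (g0 B N v) := by
    unfold g0
    exact hca.sub (continuous_const.mul hcb)
  have habs : ∀ x, |g0 B N v x| ≤ tr0 v (1 / (N : ℝ)) x + Real.log N ^ B / N * tr0 v (1 / Real.log N ^ B) x := by
    intro x
    unfold g0
    have p1 := (a1 x).1
    have p2 : 0 ≤ Real.log N ^ B / N * tr0 v (1 / Real.log N ^ B) x := mul_nonneg hc (b1 x).1
    rw [abs_le]
    constructor <;> linarith
  have hint : Integrable (g0 B N v) := by
    unfold g0
    exact a4.sub (b4.const_mul _)
  have hval : (Real.log N ^ B / N) * (1 / Real.log N ^ B) = 1 / N := by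
    field_simp
  refine ⟨?_, ?_, hg, hint, ?_, ?_, ?_, ?_⟩
  · intro x
    refine (habs x).trans ?_
    have p3 : Real.log N ^ B / N * tr0 v (1 / Real.log N ^ B) x ≤ 1 * 1 :=
      mul_le_mul hc1 (b1 x).2 (b1 x).1 zero_le_one
    have p4 := (a1 x).2
    linarith
  · intro x hx
    unfold g0
    rw [a2 x (hle.trans hx), b2 x hx]
    ring
  · unfold g0
    rw [integral_sub a4 (b4.const_mul _), integral_const_mul, a5, b5, hval]
    ring
  · calc ∫ x, |g0 B N v x| ≤ ∫ x, (tr0 v (1 / (N : ℝ)) x + Real.log N ^ B / N * tr0 v (1 / Real.log N ^ B) x) :=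
          integral_mono hint.abs (a4.add (b4.const_mul _)) habs
      _ = 2 / N := by
          rw [integral_add a4 (b4.const_mul _), integral_const_mul, a5, b5, hval]
          ring
  · have hdom : Integrable (fun x => tr0 v (1 / (N : ℝ)) x * |x - v| +
        Real.log N ^ B / N * (tr0 v (1 / Real.log N ^ B) x * |x - v|)) := a7.add (b7.const_mul _)
    refine hdom.mono' ?_ ?_
    · have : Continuous (fun x => |g0 B N v x| * |x - v|) :=
        hg.abs.mul ((continuous_id.sub continuous_const).abs)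
      exact this.aestronglyMeasurable
    · refine Filter.Eventually.of_forall fun x => ?_
      rw [Real.norm_eq_abs, abs_mul, abs_abs, abs_abs]
      have := mul_le_mul_of_nonneg_right (habs x) (abs_nonneg (x - v))
      linarith
  · have hdom : Integrable (fun x => tr0 v (1 / (N : ℝ)) x * |x - v| +
        Real.log N ^ B / N * (tr0 v (1 / Real.log N ^ B) x * |x - v|)) := a7.add (b7.const_mul _)
    have hi : Integrable (fun x => |g0 B N v x| * |x - v|) := by
      refine hdom.mono' ?_ ?_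
      · have : Continuous (fun x => |g0 B N v x| * |x - v|) :=
          hg.abs.mul ((continuous_id.sub continuous_const).abs)
        exact this.aestronglyMeasurable
      · refine Filter.Eventually.of_forall fun x => ?_
        rw [Real.norm_eq_abs, abs_mul, abs_abs, abs_abs]
        have := mul_le_mul_of_nonneg_right (habs x) (abs_nonneg (x - v))
        linarith
    calc ∫ x, |g0 B N v x| * |x - v| ≤ ∫ x, (tr0 v (1 / (N : ℝ)) x * |x - v| +
        Real.log N ^ B / N * (tr0 v (1 / Real.log N ^ B) x * |x - v|)) := by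
          refine integral_mono hi hdom fun x => ?_
          have := mul_le_mul_of_nonneg_right (habs x) (abs_nonneg (x - v))
          simp only
          linarith
      _ = (∫ x, tr0 v (1 / (N : ℝ)) x * |x - v|) +
          Real.log N ^ B / N * ∫ x, tr0 v (1 / Real.log N ^ B) x * |x - v| := by
          rw [integral_add a7 (b7.const_mul _), integral_const_mul]
      _ ≤ (1 / (N : ℝ)) ^ 2 + Real.log N ^ B / N * (1 / Real.log N ^ B) ^ 2 :=
          add_le_add a8 (mul_le_mul_of_nonneg_left b8 hc)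
      _ ≤ 2 / (N * Real.log N ^ B) := by
          have e1 : Real.log N ^ B / N * (1 / Real.log N ^ B) ^ 2 = 1 / N * (1 / Real.log N ^ B) := by
            field_simp
          have e2 : (1 / (N : ℝ)) ^ 2 ≤ 1 / N * (1 / Real.log N ^ B) := by
            rw [sq]
            exact mul_le_mul_of_nonneg_left hle hδ.le
          have e3 : 2 / ((N : ℝ) * Real.log N ^ B) = 1 / N * (1 / Real.log N ^ B) + 1 / N * (1 / Real.log N ^ B) := by
            field_simp
            norm_num
          rw [e1, e3]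
          linarith

end Pool.Agent.SK
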