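import Pool.Agent.helper24.SK.SpecE

set_option autoImplicit false

namespace Pool.Agent.SK

open Finset ArithmeticFunction MeasureTheory
open Pool.Agent.CH (nit DPb Win Tset ph rgh)
open Pool.Agent.EC (tri vN fN XN TL AdT yN UN edg)
open Pool.Agent.helper85.BVP (tau)
open GD (ks)

theorem EGC_tau (y : ℝ) (hy : 1 ≤ y) (k : ℕ) : ∀ n : ℕ, n ≠ 0 → (∀ p : ℕ, p.Prime → p ∣ n → y < p) →
    (n : ℝ) < y ^ (k + 1) → tau n ≤ 2 ^ k := by
  induction k with
  | zero =>
    intro n hn hp hlt
    rw [zero_add, pow_one] at hlt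
    by_cases h1 : n = 1
    · subst h1
      unfold tau
      simp
    · exfalso
      have h2 := hp n.minFac (Nat.minFac_prime h1) (Nat.minFac_dvd n)
      have h3 : (n.minFac : ℝ) ≤ n := by exact_mod_cast Nat.minFac_le (Nat.pos_of_ne_zero hn)
      linarith
  | succ k ih =>
    intro n hn hp hlt
    by_cases h1 : n = 1
    · subst h1
      unfold tau
      simp only [Nat.divisors_one, Finset.card_singleton, Nat.cast_one]
      exact one_le_pow₀ (by norm_num)
    · have hq := Nat.minFac_prime h1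
      obtain ⟨m, hm⟩ := Nat.minFac_dvd n
      have hpq := hp n.minFac hq (Nat.minFac_dvd n)
      generalize n.minFac = q at hq hm hpq
      have hm0 : m ≠ 0 := by
        rintro rfl
        exact hn (by rw [hm, mul_zero])
      have h2 : (m : ℝ) < y ^ (k + 1) := by
        have h3 : (n : ℝ) = q * m := by rw [hm]; push_cast; ring
        have hm1 : (0 : ℝ) < m := by exact_mod_cast Nat.pos_of_ne_zero hm0
        have h4 : y * m < y * y ^ (k + 1) := by
          calc y * m ≤ q * m := mul_le_mul_of_nonneg_right hpq.le hm1.le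
            _ = n := h3.symm
            _ < y ^ (k + 1 + 1) := hlt
            _ = y * y ^ (k + 1) := by ring
        exact lt_of_mul_lt_mul_left h4 (by linarith)
      have h5 := ih m hm0 (fun p hpp hpm => hp p hpp (hm ▸ hpm.mul_left q)) h2
      have h6 : tau q = 2 := by
        unfold tau
        rw [hq.divisors, Finset.card_pair hq.one_lt.ne]
        norm_num
      have h7 := Pool.Agent.helper85.BVP.tau_mul_le q m
      rw [← hm, h6] at h7
      rw [pow_succ]
      linarith

theorem EGC_eU (U n : ℕ) : |Pool.Agent.CH.eU U n| ≤ Real.log n := by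
  unfold Pool.Agent.CH.eU
  rw [ArithmeticFunction.mul_apply]
  calc |∑ x ∈ n.divisorsAntidiagonal, (Pool.Agent.helper85.BVP.trunc Pool.Agent.helper85.BVP.Mr U) x.1 *
        (Pool.Agent.helper85.BVP.trunc vonMangoldt U) x.2|
      ≤ ∑ x ∈ n.divisorsAntidiagonal, |(Pool.Agent.helper85.BVP.trunc Pool.Agent.helper85.BVP.Mr U) x.1 *
        (Pool.Agent.helper85.BVP.trunc vonMangoldt U) x.2| := Finset.abs_sum_le_sum_abs _ _
    _ ≤ ∑ x ∈ n.divisorsAntidiagonal, vonMangoldt x.2 := by
        refine Finset.sum_le_sum fun x _ => ?_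
        rw [abs_mul]
        have h1 : |(Pool.Agent.helper85.BVP.trunc Pool.Agent.helper85.BVP.Mr U) x.1| ≤ 1 := by
          rw [Pool.Agent.helper85.BVP.trunc_apply]
          split_ifs
          · unfold Pool.Agent.helper85.BVP.Mr
            have := ArithmeticFunction.abs_moebius_le_one (n := x.1)
            rw [ArithmeticFunction.intCoe_apply]
            exact_mod_cast this
          · rw [abs_zero]
            exact zero_le_one
        have h2 : |(Pool.Agent.helper85.BVP.trunc vonMangoldt U) x.2| ≤ vonMangoldt x.2 := by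
          rw [Pool.Agent.helper85.BVP.trunc_apply]
          split_ifs
          · rw [abs_of_nonneg vonMangoldt_nonneg]
          · rw [abs_zero]
            exact vonMangoldt_nonneg
        calc _ ≤ 1 * vonMangoldt x.2 := mul_le_mul h1 h2 (abs_nonneg _) zero_le_one
          _ = _ := one_mul _
    _ = Real.log n := by
        rw [Nat.sum_divisorsAntidiagonal' (f := fun _ j => vonMangoldt j)]
        exact vonMangoldt_sum

theorem EGC_edg (C N j : ℕ) : |edg C N j| ≤ tau j * Real.log j := by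
  unfold edg
  split_ifs with h
  · rw [abs_neg]
    calc |∑ c ∈ j.divisors with c ≤ UN C N, Pool.Agent.CH.eU (UN C N) (j / c)|
        ≤ ∑ c ∈ j.divisors with c ≤ UN C N, |Pool.Agent.CH.eU (UN C N) (j / c)| :=
          Finset.abs_sum_le_sum_abs _ _
      _ ≤ ∑ c ∈ j.divisors with c ≤ UN C N, Real.log j := by
          refine Finset.sum_le_sum fun c _ => ?_
          exact (EGC_eU _ _).trans (Pool.Agent.helper85.BVP.log_nat_le (Nat.div_le_self _ _))
      _ ≤ ∑ c ∈ j.divisors, Real.log j := by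
          refine Finset.sum_le_sum_of_subset_of_nonneg (Finset.filter_subset _ _) fun _ _ _ => ?_
          exact Real.log_natCast_nonneg j
      _ = tau j * Real.log j := by
          rw [Finset.sum_const, nsmul_eq_mul]
          rfl
  · rw [abs_zero]
    exact mul_nonneg (Pool.Agent.helper85.BVP.tau_nonneg j) (Real.log_natCast_nonneg j)

theorem EGC_mult (a b p : ℕ) (hab : a ≤ b) (hp : 0 < p) :
    ((#((Ioc a b).filter fun j => p ∣ j) : ℕ) : ℝ) ≤ ((b - a : ℕ) : ℝ) / p + 1 := by
  have h1 : #((Ioc a b).filter fun j => p ∣ j) + #((Ioc 0 a).filter fun j => p ∣ j) =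
      #((Ioc 0 b).filter fun j => p ∣ j) := by
    rw [← Finset.card_union_of_disjoint]
    · congr 1
      ext x
      simp only [Finset.mem_union, Finset.mem_filter, Finset.mem_Ioc]
      constructor
      · rintro (⟨⟨h1, h2⟩, h3⟩ | ⟨⟨h1, h2⟩, h3⟩)
        · exact ⟨⟨by omega, h2⟩, h3⟩
        · exact ⟨⟨h1, by omega⟩, h3⟩
      · rintro ⟨⟨h1, h2⟩, h3⟩
        rcases Nat.lt_or_ge a x with h | h
        · exact Or.inl ⟨⟨h, h2⟩, h3⟩
        · exact Or.inr ⟨⟨h1, h⟩, h3⟩
    · rw [Finset.disjoint_left]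
      intro x hx hx'
      simp only [Finset.mem_filter, Finset.mem_Ioc] at hx hx'
      omega
  rw [Nat.Ioc_filter_dvd_card_eq_div, Nat.Ioc_filter_dvd_card_eq_div] at h1
  have h2 : b / p ≤ a / p + (b - a) / p + 1 := by
    have h3 := Nat.div_add_mod a p
    have h4 := Nat.div_add_mod (b - a) p
    have h5 := Nat.mod_lt a hp
    have h6 := Nat.mod_lt (b - a) hp
    have h7 : b < p * (a / p + (b - a) / p + 1 + 1) := by
      have : b = a + (b - a) := by omega
      have e : p * (a / p + (b - a) / p + 1 + 1) = p * (a / p) + p * ((b - a) / p) + 2 * p := by ring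
      rw [e]
      omega
    have := Nat.div_lt_of_lt_mul h7
    omega
  have h3 : #((Ioc a b).filter fun j => p ∣ j) ≤ (b - a) / p + 1 := by omega
  calc ((#((Ioc a b).filter fun j => p ∣ j) : ℕ) : ℝ) ≤ (((b - a) / p + 1 : ℕ) : ℝ) := by exact_mod_cast h3
    _ ≤ ((b - a : ℕ) : ℝ) / p + 1 := by
        push_cast
        have := Nat.cast_div_le (α := ℝ) (m := b - a) (n := p)
        linarith

theorem EGC_omega (M : ℕ) (L : ℝ) (N : ℕ) (hN : 1 ≤ N) (hL : L = Real.log N) (hL3 : 3 ≤ L) (hM0 : 0 < M)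
    (hM : M ≤ 64 * N ^ 3) : (#M.primeFactors : ℝ) ≤ 10 * L := by
  have h1 : 2 ^ #M.primeFactors ≤ M := by
    calc 2 ^ #M.primeFactors = ∏ _p ∈ M.primeFactors, 2 := by rw [Finset.prod_const]
      _ ≤ ∏ p ∈ M.primeFactors, p :=
          Finset.prod_le_prod (fun _ _ => Nat.zero_le _) fun p hp => (Nat.prime_of_mem_primeFactors hp).two_le
      _ ≤ M := Nat.le_of_dvd hM0 (Nat.prod_primeFactors_dvd M)
  have hNr : (0 : ℝ) < N := by exact_mod_cast (show 0 < N by omega)
  have h2 : (2 : ℝ) ^ #M.primeFactors ≤ 64 * (N : ℝ) ^ 3 := by exact_mod_cast h1.trans hM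
  have h3 := Real.log_le_log (by positivity) h2
  rw [Real.log_pow, Real.log_mul (by norm_num) (by positivity), Real.log_pow, ← hL] at h3
  have h4 : Real.log 64 = 6 * Real.log 2 := by
    rw [show (64 : ℝ) = 2 ^ 6 by norm_num, Real.log_pow]
    norm_num
  have h5 := Real.log_two_gt_d9
  have h6 := Real.log_two_lt_d9
  rw [h4] at h3
  push_cast at h3
  by_contra hcon
  have h7 : 10 * L * 0.69 < (#M.primeFactors : ℝ) * Real.log 2 := by nlinarith
  linarith

theorem EGC_large (A : ℕ) : ∃ N₀ : ℕ, ∀ N : ℕ, N₀ ≤ N → 8 ≤ N ∧ 3 ≤ Real.log N ∧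
    2 ≤ Real.log N ^ (1 / 20 : ℝ) ∧
    320 * (Real.log N ^ (1 / 20 : ℝ)) ^ (40 + 20 * A) ≤ Real.exp (Real.log N ^ (1 / 20 : ℝ)) := by
  have h1 : ∀ᶠ x : ℝ in Filter.atTop, ‖x ^ (40 + 20 * A)‖ ≤ (1 / 320) * ‖Real.exp x‖ :=
    (Asymptotics.isLittleO_iff.1 (Real.isLittleO_pow_exp_atTop (n := 40 + 20 * A))) (by norm_num)
  have h2 : ∀ᶠ x : ℝ in Filter.atTop, 2 ≤ x := Filter.eventually_ge_atTop 2
  have hlog : Filter.Tendsto (fun N : ℕ => Real.log N) Filter.atTop Filter.atTop :=
    Real.tendsto_log_atTop.comp tendsto_natCast_atTop_atTop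
  have hz : Filter.Tendsto (fun N : ℕ => Real.log N ^ (1 / 20 : ℝ)) Filter.atTop Filter.atTop :=
    (tendsto_rpow_atTop (by norm_num)).comp hlog
  have h3 := hz.eventually (h1.and h2)
  have h4 := hlog.eventually (Filter.eventually_ge_atTop 3)
  have h5 : ∀ᶠ N : ℕ in Filter.atTop, 8 ≤ N := Filter.eventually_ge_atTop 8
  obtain ⟨N₀, hN₀⟩ := Filter.eventually_atTop.1 (h5.and (h4.and h3))
  refine ⟨N₀, fun N hN => ?_⟩
  obtain ⟨a, b, c, d⟩ := hN₀ N hN
  refine ⟨a, b, d, ?_⟩
  rw [Real.norm_of_nonneg (by positivity), Real.norm_of_nonneg (Real.exp_pos _).le] at c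
  linarith

theorem EGC_fN (N j : ℕ) (hN : 1 ≤ N) : 0 ≤ fN N j ∧ fN N j ≤ 1 := by
  unfold fN tri
  have hNr : (0 : ℝ) < N := by exact_mod_cast (show 0 < N by omega)
  refine ⟨le_max_left _ _, max_le zero_le_one ?_⟩
  have : 0 ≤ |Real.log j - vN N| / (1 / (N : ℝ)) := by positivity
  linarith

theorem EGC : EGC_stmt := by
  classical
  intro A C
  obtain ⟨N₀, hN₀⟩ := EGC_large A
  refine ⟨N₀, fun N hN M hM0 hM => ?_⟩
  obtain ⟨hN8, hL3, hz2, hzb⟩ := hN₀ N hN
  have hNr : (8 : ℝ) ≤ N := by exact_mod_cast hN8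
  have hNpos : (0 : ℝ) < N := by linarith
  have hom := EGC_omega M (Real.log N) N (by omega) rfl hL3 hM0 hM
  have hL0 : 0 < Real.log N := by linarith
  obtain ⟨z, hz⟩ : ∃ z : ℝ, z = Real.log N ^ (1 / 20 : ℝ) := ⟨_, rfl⟩
  rw [← hz] at hz2 hzb
  have hz20 : Real.log N = z ^ 20 := by
    rw [hz, ← Real.rpow_natCast, ← Real.rpow_mul hL0.le]
    norm_num
  have hz19 : Pool.Agent.CH.dl N = z ^ 19 := by
    unfold Pool.Agent.CH.dl
    rw [hz, ← Real.rpow_natCast, ← Real.rpow_mul hL0.le]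
    norm_num
  have hy : yN N = Real.exp (z ^ 19) := by
    unfold yN
    rw [hz19]
  have hz0 : 0 < z := by linarith
  have hy1 : 1 ≤ yN N := by
    rw [hy]
    exact Real.one_le_exp (by positivity)
  have hy0 : 0 < yN N := by linarith
  have hNexp : Real.exp (Real.log N) = N := Real.exp_log hNpos
  -- the number `k`
  obtain ⟨k, hk⟩ : ∃ k : ℕ, k = ⌊4 * z⌋₊ := ⟨_, rfl⟩
  have hk1 : (k : ℝ) ≤ 4 * z := by
    rw [hk]
    exact Nat.floor_le (by positivity)
  have hk2 : 4 * z < (k : ℝ) + 1 := by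
    rw [hk]
    exact Nat.lt_floor_add_one _
  have hk3 : (2 : ℝ) ^ k ≤ Real.exp (4 * z) := by
    have h1 : (2 : ℝ) ≤ Real.exp 1 := by
      have := Real.add_one_le_exp (1 : ℝ)
      linarith
    calc (2 : ℝ) ^ k ≤ Real.exp 1 ^ k := pow_le_pow_left₀ (by norm_num) h1 k
      _ = Real.exp k := by rw [← Real.exp_nat_mul, mul_one]
      _ ≤ Real.exp (4 * z) := Real.exp_le_exp.2 hk1
  have hpow : 8 * (N : ℝ) ^ 3 < yN N ^ (k + 1) := by
    rw [hy, ← Real.exp_nat_mul]
    have h1 : 4 * Real.log N < ((k + 1 : ℕ) : ℝ) * z ^ 19 := by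
      rw [hz20]
      push_cast
      have : 4 * z * z ^ 19 < (k + 1) * z ^ 19 := mul_lt_mul_of_pos_right hk2 (by positivity)
      nlinarith
    have h2 : Real.exp (4 * Real.log N) = (N : ℝ) ^ 4 := by
      rw [show (4 : ℝ) * Real.log N = ((4 : ℕ) : ℝ) * Real.log N by norm_num, Real.exp_nat_mul, hNexp]
    have h3 : 8 * (N : ℝ) ^ 3 ≤ (N : ℝ) ^ 4 := by
      have : 0 ≤ (N : ℝ) ^ 3 := by positivity
      nlinarith
    calc 8 * (N : ℝ) ^ 3 ≤ Real.exp (4 * Real.log N) := h2 ▸ h3
      _ < _ := Real.exp_lt_exp.2 h1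
  -- bound for a single `j`
  have hWin : ∀ j ∈ Win N, (j : ℝ) ≤ 8 * (N : ℝ) ^ 3 := by
    intro j hj
    unfold Win at hj
    rw [Finset.mem_Ioc] at hj
    have h1 : (N + 1) ^ 3 ≤ 8 * N ^ 3 := by
      have : N + 1 ≤ 2 * N := by omega
      calc (N + 1) ^ 3 ≤ (2 * N) ^ 3 := Nat.pow_le_pow_left this 3
        _ = 8 * N ^ 3 := by ring
    exact_mod_cast hj.2.trans h1
  have hT0 : 0 ≤ (2 : ℝ) ^ k * (4 * Real.log N) := by positivity
  have hone : ∀ j ∈ Win N, rgh (yN N) j → |edg C N j| ≤ 2 ^ k * (4 * Real.log N) := by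
    intro j hj hr
    have h1 := EGC_edg C N j
    have hj8 := hWin j hj
    have hj0 : (0 : ℝ) < j := by exact_mod_cast Nat.pos_of_ne_zero hr.1
    have h2 := EGC_tau (yN N) hy1 k j hr.1 hr.2 (lt_of_le_of_lt hj8 hpow)
    have h3 : Real.log j ≤ 4 * Real.log N := by
      have h4 := Real.log_le_log hj0 hj8
      rw [Real.log_mul (by norm_num) (by positivity), Real.log_pow] at h4
      have h5 : Real.log 8 ≤ Real.log N := Real.log_le_log (by norm_num) hNr
      push_cast at h4
      linarith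
    refine h1.trans (mul_le_mul h2 h3 (Real.log_natCast_nonneg j) (by positivity))
  -- counting
  have hcount : ∀ p ∈ M.primeFactors, yN N < p →
      ((#((Win N).filter fun j => p ∣ j) : ℕ) : ℝ) ≤ 8 * (N : ℝ) ^ 2 / yN N := by
    intro p hp hyp
    have hp0 : 0 < p := (Nat.prime_of_mem_primeFactors hp).pos
    have h1 := EGC_mult (N ^ 3) ((N + 1) ^ 3) p (Nat.pow_le_pow_left (by omega) 3) hp0
    have h2 : (((N + 1) ^ 3 - N ^ 3 : ℕ) : ℝ) ≤ 7 * (N : ℝ) ^ 2 := by
      have h3 : (N + 1) ^ 3 - N ^ 3 ≤ 7 * N ^ 2 := by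
        have e : (N + 1) ^ 3 = N ^ 3 + (3 * N ^ 2 + 3 * N + 1) := by ring
        rw [e, Nat.add_sub_cancel_left]
        nlinarith
      exact_mod_cast h3
    have hpr : (0 : ℝ) < p := by exact_mod_cast hp0
    have h3 : (((N + 1) ^ 3 - N ^ 3 : ℕ) : ℝ) / p ≤ 7 * (N : ℝ) ^ 2 / yN N :=
      div_le_div₀ (by positivity) h2 hy0 hyp.le
    have h4 : 1 ≤ (N : ℝ) ^ 2 / yN N := by
      rw [one_le_div hy0, hy]
      have h5 : (N : ℝ) ^ 2 = Real.exp (2 * Real.log N) := by
        rw [show (2 : ℝ) * Real.log N = ((2 : ℕ) : ℝ) * Real.log N by norm_num, Real.exp_nat_mul, hNexp]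
      rw [h5]
      refine Real.exp_le_exp.2 ?_
      rw [hz20]
      have h6 : 0 ≤ z ^ 19 := by positivity
      nlinarith
    have h5 : 8 * (N : ℝ) ^ 2 / yN N = 7 * (N : ℝ) ^ 2 / yN N + (N : ℝ) ^ 2 / yN N := by ring
    rw [h5]
    unfold Win
    linarith
  -- summation
  calc ∑ j ∈ Win N with ¬ Nat.Coprime j M, |edg C N j| * fN N j
      ≤ ∑ j ∈ Win N with ¬ Nat.Coprime j M, ∑ p ∈ M.primeFactors,
          if yN N < p ∧ p ∣ j then 2 ^ k * (4 * Real.log N) else 0 := by
        refine Finset.sum_le_sum fun j hj => ?_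
        rw [Finset.mem_filter] at hj
        obtain ⟨hf0, hf1⟩ := EGC_fN N j (by omega)
        have hnn : ∀ p ∈ M.primeFactors, 0 ≤ if yN N < p ∧ p ∣ j then 2 ^ k * (4 * Real.log N) else 0 := by
          intro p _
          split_ifs
          · exact hT0
          · exact le_rfl
        by_cases hr : rgh (yN N) j
        · obtain ⟨p, hp, hpj, hpM⟩ := Nat.Prime.not_coprime_iff_dvd.1 hj.2
          have hpM' : p ∈ M.primeFactors := Nat.mem_primeFactors.2 ⟨hp, hpM, hM0.ne'⟩
          have h1 := Finset.single_le_sum hnn hpM'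
          rw [if_pos ⟨hr.2 p hp hpj, hpj⟩] at h1
          have h2 := hone j hj.1 hr
          calc |edg C N j| * fN N j ≤ |edg C N j| * 1 := mul_le_mul_of_nonneg_left hf1 (abs_nonneg _)
            _ ≤ 2 ^ k * (4 * Real.log N) := by rw [mul_one]; exact h2
            _ ≤ _ := h1
        · have h0 : edg C N j = 0 := by
            unfold edg
            rw [if_neg hr]
          rw [h0, abs_zero, zero_mul]
          exact Finset.sum_nonneg hnn
    _ ≤ ∑ j ∈ Win N, ∑ p ∈ M.primeFactors,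
          if yN N < p ∧ p ∣ j then 2 ^ k * (4 * Real.log N) else 0 := by
        refine Finset.sum_le_sum_of_subset_of_nonneg (Finset.filter_subset _ _) fun j _ _ => ?_
        refine Finset.sum_nonneg fun p _ => ?_
        split_ifs
        · exact hT0
        · exact le_rfl
    _ = ∑ p ∈ M.primeFactors, ∑ j ∈ Win N,
          if yN N < p ∧ p ∣ j then 2 ^ k * (4 * Real.log N) else 0 := Finset.sum_comm
    _ ≤ ∑ p ∈ M.primeFactors, 8 * (N : ℝ) ^ 2 / yN N * (2 ^ k * (4 * Real.log N)) := by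
        refine Finset.sum_le_sum fun p hp => ?_
        by_cases hyp : yN N < p
        · have e1 : ∑ j ∈ Win N, (if yN N < p ∧ p ∣ j then 2 ^ k * (4 * Real.log N) else 0) =
              ((#((Win N).filter fun j => p ∣ j) : ℕ) : ℝ) * (2 ^ k * (4 * Real.log N)) := by
            rw [← nsmul_eq_mul, ← Finset.sum_const, Finset.sum_filter]
            refine Finset.sum_congr rfl fun j _ => ?_
            by_cases hpj : p ∣ j
            · rw [if_pos ⟨hyp, hpj⟩, if_pos hpj]
            · rw [if_neg (fun h => hpj h.2), if_neg hpj]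
          rw [e1]
          exact mul_le_mul_of_nonneg_right (hcount p hp hyp) hT0
        · have e1 : ∑ j ∈ Win N, (if yN N < p ∧ p ∣ j then 2 ^ k * (4 * Real.log N) else 0) = 0 :=
            Finset.sum_eq_zero fun j _ => if_neg fun h => hyp h.1
          rw [e1]
          positivity
    _ = (#M.primeFactors : ℝ) * (8 * (N : ℝ) ^ 2 / yN N * (2 ^ k * (4 * Real.log N))) := by
        rw [Finset.sum_const, nsmul_eq_mul]
    _ ≤ 10 * Real.log N * (8 * (N : ℝ) ^ 2 / yN N * (Real.exp (4 * z) * (4 * Real.log N))) := by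
        refine mul_le_mul hom ?_ (by positivity) (by positivity)
        refine mul_le_mul_of_nonneg_left ?_ (by positivity)
        exact mul_le_mul_of_nonneg_right hk3 (by positivity)
    _ = 320 * Real.log N ^ 2 * Real.exp (4 * z) / yN N * (N : ℝ) ^ 2 := by ring
    _ ≤ (N : ℝ) ^ 2 / Real.log N ^ A := by
        have h1 : 320 * Real.log N ^ 2 * Real.exp (4 * z) * Real.log N ^ A ≤ yN N := by
          have h2 : 320 * Real.log N ^ 2 * Real.exp (4 * z) * Real.log N ^ A =
              320 * z ^ (40 + 20 * A) * Real.exp (4 * z) := by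
            rw [hz20, ← pow_mul, ← pow_mul, pow_add]
            ring
          rw [h2, hy]
          calc 320 * z ^ (40 + 20 * A) * Real.exp (4 * z) ≤ Real.exp z * Real.exp (4 * z) :=
                mul_le_mul_of_nonneg_right hzb (Real.exp_pos _).le
            _ = Real.exp (5 * z) := by rw [← Real.exp_add]; congr 1; ring
            _ ≤ Real.exp (z ^ 19) := by
                refine Real.exp_le_exp.2 ?_
                have h3 : (2 : ℝ) ^ 18 ≤ z ^ 18 := pow_le_pow_left₀ (by norm_num) hz2 18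
                have h4 : z ^ 19 = z * z ^ 18 := by ring
                rw [h4]
                nlinarith
        have hLA : 0 < Real.log N ^ A := by positivity
        have h5 : 320 * Real.log N ^ 2 * Real.exp (4 * z) / yN N ≤ 1 / Real.log N ^ A := by
          rw [div_le_div_iff₀ hy0 hLA, one_mul]
          exact h1
        calc _ ≤ 1 / Real.log N ^ A * (N : ℝ) ^ 2 := mul_le_mul_of_nonneg_right h5 (by positivity)
          _ = _ := by ring

end Pool.Agent.SK
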