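import Pool.Agent.helper24.SK.Spec

set_option autoImplicit false

namespace Pool.Agent.SK

open Finset ArithmeticFunction MeasureTheory
open Pool.Agent.CH (nit DPb Win Tset ph)
open Pool.Agent.EC (tri vN fN XN TL AdT)
open Pool.Agent.helper85.BVP (tau)
open GD (ks)

theorem TLD_cons (r : ℕ) (S : Finset ℕ) (G : (Fin (r + 1) → ℕ) → ℝ) :
    ∑ p ∈ Fintype.piFinset (fun _ : Fin (r + 1) => S), G p =
      ∑ d ∈ S, ∑ p ∈ Fintype.piFinset (fun _ : Fin r => S), G (Fin.cons d p) := by
  rw [← Finset.sum_product']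
  symm
  refine Finset.sum_nbij' (fun x => Fin.cons x.1 x.2) (fun p => (p 0, Fin.tail p)) ?_ ?_ ?_ ?_ ?_
  · rintro ⟨d, p⟩ h
    rw [Finset.mem_product, Fintype.mem_piFinset] at h
    rw [Fintype.mem_piFinset]
    intro i
    refine Fin.cases ?_ (fun j => ?_) i
    · exact h.1
    · exact h.2 j
  · intro p h
    rw [Fintype.mem_piFinset] at h
    rw [Finset.mem_product, Fintype.mem_piFinset]
    exact ⟨h 0, fun i => h i.succ⟩
  · rintro ⟨d, p⟩ _
    simp
  · intro p _
    simp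
  · rintro ⟨d, p⟩ _
    rfl

theorem TLD_gen (r : ℕ) : ∀ (f : Fin r → ArithmeticFunction ℝ), (∀ i n, f i n ≠ 0 → n.Prime) →
    ∀ (g : ArithmeticFunction ℝ) (S : Finset ℕ) (m : ℕ), m ≠ 0 → (∀ p, p.Prime → p ∣ m → p ∈ S) →
    ((∏ i, f i) * g) m = ∑ p ∈ Fintype.piFinset (fun _ : Fin r => S),
      if ∏ i, p i ∣ m then (∏ i, f i (p i)) * g (m / ∏ i, p i) else 0 := by
  classical
  induction r with
  | zero =>
    intro f hf g S m hm hS
    simp
  | succ r ih =>
    intro f hf g S m hm hS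
    rw [Fin.prod_univ_succ, mul_assoc, ArithmeticFunction.mul_apply,
      Nat.sum_divisorsAntidiagonal (f := fun i j => f 0 i * ((∏ i : Fin r, f i.succ) * g) j), TLD_cons]
    have e1 : ∀ d ∈ m.divisors, f 0 d * ((∏ i : Fin r, f i.succ) * g) (m / d) =
        if d ∈ S then f 0 d * ((∏ i : Fin r, f i.succ) * g) (m / d) else 0 := by
      intro d hd
      by_cases h : d ∈ S
      · rw [if_pos h]
      · rw [if_neg h]
        have : f 0 d = 0 := by
          by_contra hne
          exact h (hS d (hf 0 d hne) (Nat.dvd_of_mem_divisors hd))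
        rw [this, zero_mul]
    rw [Finset.sum_congr rfl e1, ← Finset.sum_filter]
    have e2 : m.divisors.filter (fun d => d ∈ S) = S.filter (fun d => d ∣ m) := by
      ext d
      rw [Finset.mem_filter, Finset.mem_filter, Nat.mem_divisors]
      tauto
    rw [e2, Finset.sum_filter]
    refine Finset.sum_congr rfl fun d hd => ?_
    by_cases hdm : d ∣ m
    · rw [if_pos hdm]
      have hd0 : d ≠ 0 := by
        rintro rfl
        exact hm (zero_dvd_iff.1 hdm)
      have hmd : m / d ≠ 0 := by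
        intro h
        have := Nat.div_mul_cancel hdm
        rw [h, zero_mul] at this
        exact hm this.symm
      rw [ih (fun i => f i.succ) (fun i n h => hf i.succ n h) g S (m / d) hmd
        (fun p hp hpd => hS p hp (hpd.trans (Nat.div_dvd_of_dvd hdm))), Finset.mul_sum]
      refine Finset.sum_congr rfl fun p hp => ?_
      have e3 : ∏ i, (Fin.cons d p : Fin (r + 1) → ℕ) i = d * ∏ i, p i := by
        rw [Fin.prod_univ_succ]
        simp
      have e4 : (d * ∏ i, p i ∣ m) ↔ (∏ i, p i ∣ m / d) := by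
        constructor
        · intro h
          rw [Nat.dvd_div_iff_mul_dvd hdm]
          exact h
        · intro h
          rw [Nat.dvd_div_iff_mul_dvd hdm] at h
          exact h
      rw [e3]
      by_cases h5 : ∏ i, p i ∣ m / d
      · rw [if_pos h5, if_pos (e4.2 h5), Fin.prod_univ_succ, Nat.div_div_eq_div_mul]
        simp only [Fin.cons_zero, Fin.cons_succ]
        ring
      · rw [if_neg h5, if_neg (fun h => h5 (e4.1 h)), mul_zero]
    · rw [if_neg hdm]
      symm
      refine Finset.sum_eq_zero fun p hp => ?_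
      have e3 : ∏ i, (Fin.cons d p : Fin (r + 1) → ℕ) i = d * ∏ i, p i := by
        rw [Fin.prod_univ_succ]
        simp
      rw [e3, if_neg (fun h => hdm ((dvd_mul_right d _).trans h))]

theorem TLD : TLD_stmt := by
  classical
  intro r N a b m hm
  have hm0 : m ≠ 0 := by omega
  rw [TLD_gen r (fun i => cel ((N : ℝ) ^ a i) ((N : ℝ) ^ b i)) (fun i n h => ?_) vonMangoldt m.primeFactors m hm0
    (fun p hp hpm => Nat.mem_primeFactors.2 ⟨hp, hpm, hm0⟩)]
  · unfold TL
    rw [Finset.sum_filter]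
    refine Finset.sum_congr rfl fun p hp => ?_
    rw [Fintype.mem_piFinset] at hp
    have hcel : ∀ i, cel ((N : ℝ) ^ a i) ((N : ℝ) ^ b i) (p i) =
        if (N : ℝ) ^ a i ≤ (p i : ℝ) ∧ (p i : ℝ) < (N : ℝ) ^ b i then 1 else 0 := by
      intro i
      have hpr : (p i).Prime := Nat.prime_of_mem_primeFactors (hp i)
      change (if (p i).Prime ∧ (N : ℝ) ^ a i ≤ (p i : ℝ) ∧ (p i : ℝ) < (N : ℝ) ^ b i then (1 : ℝ) else 0) = _
      by_cases h : (N : ℝ) ^ a i ≤ (p i : ℝ) ∧ (p i : ℝ) < (N : ℝ) ^ b i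
      · rw [if_pos h, if_pos ⟨hpr, h⟩]
      · rw [if_neg h, if_neg (fun h' => h h'.2)]
    have hprod : ∏ i, cel ((N : ℝ) ^ a i) ((N : ℝ) ^ b i) (p i) =
        if ∀ i, (N : ℝ) ^ a i ≤ (p i : ℝ) ∧ (p i : ℝ) < (N : ℝ) ^ b i then 1 else 0 := by
      rw [Finset.prod_congr rfl fun i _ => hcel i, Finset.prod_ite_zero]
      simp
    rw [hprod]
    by_cases h1 : ∏ i, p i ∣ m
    · by_cases h2 : ∀ i, (N : ℝ) ^ a i ≤ (p i : ℝ) ∧ (p i : ℝ) < (N : ℝ) ^ b i
      · rw [if_pos ⟨h2, h1⟩, if_pos h1, if_pos h2, one_mul]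
      · rw [if_neg (fun h => h2 h.1), if_pos h1, if_neg h2, zero_mul]
    · rw [if_neg (fun h => h1 h.2), if_neg h1]
  · by_contra hn
    apply h
    change (if n.Prime ∧ (N : ℝ) ^ a i ≤ (n : ℝ) ∧ (n : ℝ) < (N : ℝ) ^ b i then (1 : ℝ) else 0) = 0
    rw [if_neg (fun h' => hn h'.1)]

end Pool.Agent.SK
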